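import Pool.Agent.MP_5d9b3c_ag.P3G.Hyp
import Pool.Agent.MP_5d9b3c_ag.O3.Defs

/-!
The functional equation over a base can be chosen invariant.
-/

namespace Pool.Agent.MP_ee8c61_ag.N3.P3G

open Pool.Agent.MP_ee8c61_ag.M3 M3RESID Pool.Agent.MP_5d9b3c_ag P3 P3T MvPolynomial Finset
open Pool.Agent.MP_5d9b3c_ag.P3G
open H59 hiding pd
open M3B1 (pd)

noncomputable section

variable [Base] {F : Type} [Field F] [Algebra F ℂ] {N : ℕ} {f : Po N}

/-- The solutions of the functional equation. -/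
def BSs (f : Po N) : Submodule ℂ (Polynomial ℂ × (Fin N → PX N (KK N)) × PX N (KK N)) where
  carrier := {x | BSd f x.1 x.2.1 x.2.2}
  zero_mem' := ⟨⟨0, fun _ _ => by simp⟩, fun _ => by simp, by simp⟩
  add_mem' := fun {x y} hx hy => by
    obtain ⟨u, hu⟩ := hx.pol
    obtain ⟨u', hu'⟩ := hy.pol
    refine ⟨⟨u + u', fun l e => ?_⟩, fun e => ?_, ?_⟩
    · have h0 : ip N f ∈ (ip N).range := ⟨f, rfl⟩
      have := add_mem (mul_mem (pow_mem h0 u') (hu l e)) (mul_mem (pow_mem h0 u) (hu' l e))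
      rwa [show ∀ a c : KK N, ip N f ^ u' * (ip N f ^ u * a) + ip N f ^ u * (ip N f ^ u' * c) =
        ip N f ^ (u + u') * (a + c) from fun a c => by ring, ← coeff_add] at this
    · exact coeff_add e x.2.2 y.2.2 ▸ add_mem (hx.reg e) (hy.reg e)
    · simp only [Prod.fst_add, Prod.snd_add, Pi.add_apply, map_add, hx.eq, hy.eq, mul_add,
        sum_add_distrib]
      ring
  smul_mem' := fun a x hx => by
    obtain ⟨u, hu⟩ := hx.pol
    refine ⟨⟨u, fun l e => ?_⟩, fun e => ?_, ?_⟩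
    · have := Subalgebra.smul_mem _ (hu l e) a
      rwa [← mul_smul_comm, ← coeff_smul] at this
    · exact coeff_smul e a x.2.2 ▸ Subalgebra.smul_mem _ (hx.reg e) a
    · simp only [Prod.smul_fst, Prod.smul_snd, Pi.smul_apply, map_smul, hx.eq, smul_add,
        smul_sum, mul_smul_comm, Derivation.map_smul]

variable [FB F]

theorem bsd_map {b : Polynomial ℂ} {β : Fin N → PX N (KK N)} {Q : PX N (KK N)} (h : BSd f b β Q)
    (σ : Gm F) (hf : FxP F f) {s : SI (KK N) (KK N)} (e : s = (gaK F N).si σ) :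
    BSd f (b.map s.c) (fun l => map (s.e : KK N →+* KK N) (β l)) (map (s.e : KK N →+* KK N) Q) := by
  have hs : ∀ l, s.e (M3.xx N l) = M3.xx N l := e ▸ gaK_x0 σ
  have hx : ∀ l, s.e (xx N l) = xx N l := e ▸ gaK_xx σ
  have hi : ∀ g, g ∈ (ip N).range → s.e g ∈ (ip N).range := e ▸ fun _ => (mem_ip σ).2
  replace hf : s.e (ip N f) = ip N f := e ▸ hf σ
  obtain ⟨u, hu⟩ := h.pol
  refine ⟨⟨u, fun l e => ?_⟩, fun e => ?_, ?_⟩
  · have := hi _ (hu l e)
    rwa [map_mul, map_pow, hf, ← RingEquiv.coe_toRingHom, ← coeff_map] at this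
  · rw [coeff_map]
    exact hi _ (h.reg e)
  have e1 : ∀ l P, map (s.e : KK N →+* KK N) (dpol (Option (Fin N)) (pd N l) P) =
      dpol _ (pd N l) (map (s.e : KK N →+* KK N) P) := fun l P => MvPolynomial.ext _ _ fun e => by
    rw [coeff_map, coeff_dpol, coeff_dpol, coeff_map]
    exact SI.e_pd hs l _
  have e2 : map (s.e : KK N →+* KK N) (Polynomial.aeval (X none : PX N (KK N)) b) =
      Polynomial.aeval (X none : PX N (KK N)) (b.map (s.c : ℂ →+* ℂ)) := by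
    rw [Polynomial.map_aeval_eq_aeval_map (φ := (s.c : ℂ →+* ℂ)) ?_ b, map_X]
    ext a : 1
    simp only [RingHom.comp_apply, MvPolynomial.algebraMap_apply, map_C,
      RingEquiv.coe_toRingHom, s.map]
  have := congrArg (map (s.e : KK N →+* KK N)) h.eq
  simpa only [e2, map_add, map_mul, map_sum, map_C, map_X, e1, RingEquiv.coe_toRingHom, hf,
    SI.e_pd hs, hx, map_inv₀] using this

theorem _root_.Pool.Agent.MP_ee8c61_ag.N3.shyp [Algebra.IsAlgebraic F ℂ] (hf : FxP F f)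
    {la : ℚ}
    {b : Polynomial ℂ} {β : Fin N → PX N (KK N)} {Q : PX N (KK N)} (H : Hyp f la b β Q) :
    ∃ b' β' Q', Hyp f la b' β' Q' ∧ HypG F la b' β' Q' := by
  obtain ⟨⟨b', β', Q'⟩, h1, h2, h3⟩ :=
    ((GA.num F).pl.prod ((((gaK F N).mp _).pi (Fin N)).prod ((gaK F N).mp _))).exists_fx
    (W := BSs f) (W' := LinearMap.ker (Polynomial.leval (-(la : ℂ)) ∘ₗ LinearMap.fst ℂ _ _))
    (fun σ x hx => bsd_map hx σ hf rfl) (x := (b, β, Q)) H.bs H.nr
  have a1 : (GA.num F).pl.Fx b' := fun σ => congrArg (·.1) (h2 σ)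
  have a2 : ∀ l, ((gaK F N).mp _).Fx (β' l) := fun l σ => congrArg (·.2.1 l) (h2 σ)
  have a3 : ((gaK F N).mp _).Fx Q' := fun σ => congrArg (·.2.2) (h2 σ)
  refine ⟨b', β', Q', ⟨H.ne, h1, h3⟩, (GA.num F).pl_fx.1 a1,
    fun l => (gaK F N).mp_fx.1 (a2 l), (gaK F N).mp_fx.1 a3, fun σ => ?_,
    invV_sum fun l => ev0_fix la ((gaK F N).mp_fx.1 (a2 l)),
    invV_sum fun l => ev0_fix la ((gaK F N).mp_fx.1 fun σ => ?_)⟩
  · rw [Polynomial.eval_eq_sum_range]
    exact (GA.num F).fix.sum_mem (fun e _ => mul_mem ((GA.num F).pl_fx.1 a1 e)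
      (pow_mem (neg_mem (SubfieldClass.ratCast_mem _ _)) _)) σ
  · rw [GA.mp_a, ← pderiv_map]
    exact congrArg _ (a2 l σ)

end

end Pool.Agent.MP_ee8c61_ag.N3.P3G
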